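import Pool.Agent.N886.PAC.Main

/-!
# A field with property (A) whose absolute Galois group is not procyclic
-/

set_option autoImplicit false

open AlgebraicGeometry CategoryTheory TopologicalSpace

namespace Pool.Agent.Results.MP_023059_nt.PropertyANotProcyclic

attribute [local instance] MvPolynomial.gradedAlgebra

/-- `X` is projective over the field `K`: it is a closed subscheme of some projective space
`Proj K[x_0, ..., x_n]` over `K`. -/
def IsProjectiveOver {K : Type} [Field K] {X : Scheme.{0}} (f : X ⟶ Spec (.of K)) : Prop :=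
  ∃ (n : ℕ) (i : X ⟶ Proj (MvPolynomial.homogeneousSubmodule (Fin (n + 1)) K)),
    IsClosedImmersion i ∧
    i ≫ (Proj.toSpecZero (MvPolynomial.homogeneousSubmodule (Fin (n + 1)) K) ≫
      Spec.map (CommRingCat.ofHom
        (algebraMap K (MvPolynomial.homogeneousSubmodule (Fin (n + 1)) K 0)))) = f

/-- The structure map from `K` to the ring of global functions on `X`. -/
noncomputable def structureMap {K : Type} [Field K] {X : Scheme.{0}} (f : X ⟶ Spec (.of K)) :
    K →+* Γ(X, ⊤) :=
  ((Scheme.ΓSpecIso (.of K)).inv ≫ f.appTop).hom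

/-- The structure sheaf of `X` as a sheaf of abelian groups. -/
noncomputable def structureSheafAb (X : Scheme.{0}) :
    Sheaf (Opens.grothendieckTopology X) AddCommGrpCat.{0} :=
  (sheafCompose _ (forget₂ RingCat.{0} AddCommGrpCat.{0})).obj X.ringCatSheaf

/-- `X` is an `O`-acyclic variety over `K`: smooth, projective and geometrically integral, with
`H^0(X, O_X)` of dimension one over `K` and `H^i(X, O_X) = 0` for all `i > 0`. -/
structure IsOAcyclicVariety {K : Type} [Field K] {X : Scheme.{0}} (f : X ⟶ Spec (.of K)) :
    Prop where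
  smooth : Smooth f
  projective : IsProjectiveOver f
  geometricallyIntegral : GeometricallyIntegral f
  finrank_H0 : @Module.finrank K Γ(X, ⊤) _ _ (structureMap f).toAlgebra.toModule = 1
  H_eq_zero : ∀ i : ℕ, 0 < i → Subsingleton (Sheaf.H (structureSheafAb X) i)

/-- Property (A): every `O`-acyclic variety over `K` has a `K`-rational point. -/
def PropertyA (K : Type) [Field K] : Prop :=
  ∀ (X : Scheme.{0}) (f : X ⟶ Spec (.of K)), IsOAcyclicVariety f →
    ∃ s : Spec (.of K) ⟶ X, s ≫ f = 𝟙 _

/-- The absolute Galois group of `K`, with its Krull topology. -/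
abbrev AbsGal (K : Type) [Field K] : Type := SeparableClosure K ≃ₐ[K] SeparableClosure K

/-- The absolute Galois group of `K` is procyclic. -/
def IsProcyclic (K : Type) [Field K] : Prop :=
  ∃ g : AbsGal K, (Subgroup.zpowers g).topologicalClosure = ⊤

end Pool.Agent.Results.MP_023059_nt.PropertyANotProcyclic

open Pool.Agent.Results.MP_023059_nt.PropertyANotProcyclic in
/-- There is a field of characteristic zero with property (A) whose absolute Galois group is not
procyclic, and not even topologically finitely generated. -/
theorem Pool.Agent.Results.MP_023059_nt.PropertyANotProcyclic.result :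
    ∃ (K : Type) (_ : Field K), CharZero K ∧ PropertyA K ∧ ¬ IsProcyclic K ∧
      ∀ T : Finset (AbsGal K), (Subgroup.closure (T : Set (AbsGal K))).topologicalClosure ≠ ⊤ := by
  obtain ⟨K, i1, i2, h1, h2⟩ := Pool.Agent.N886.PAC.main
  refine ⟨K, i1, i2, fun X f hf => ?_, ?_, fun T hT => h2 ⟨T, hT⟩⟩
  · have := hf.smooth
    have := hf.geometricallyIntegral
    exact h1 X f inferInstance inferInstance
  · rintro ⟨g, hg⟩
    apply h2
    refine ⟨{g}, ?_⟩
    rw [Finset.coe_singleton, ← Subgroup.zpowers_eq_closure]
    exact hg
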